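import Pool.Agent.K7.H37.UK.Stm

/-!
# Ulam's knot game (MP_fb72b7_co), job ANN of helper37's project UK: annotated paths are good
-/

set_option autoImplicit false

namespace Pool.Agent.K7.H53.UK

open Pool.Agent.K7.H37.UK

/-- relation of a newer pair `y` (height, run) to an older pair `x` -/
def Rel (y x : ℤ × ℕ) : Prop :=
  x.2 ≤ y.2 ∧ (y.2 = 0 → x.2 = 0 → x.1 < y.1) ∧ (y.2 = 1 → x.2 = 1 → y.1 < x.1) ∧
    (y.2 = 2 → x.2 = 2 → x.1 < y.1) ∧ (y.2 = 2 → x.2 = 0 → y.1 < x.1) ∧ y.2 ≤ 2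

theorem core (a b c e : ℤ × ℕ) (hab : Rel a b) (hbc : Rel b c) (hce : Rel c e) (hae : Rel a e) :
    ¬ (a.1 < b.1 ∧ c.1 < b.1 ∧ c.1 < e.1 ∧ a.1 < e.1) ∧
      ¬ (b.1 < a.1 ∧ b.1 < c.1 ∧ e.1 < c.1 ∧ e.1 < a.1) := by
  obtain ⟨ab0, ab1, ab2, ab3, ab4, ab5⟩ := hab
  obtain ⟨bc0, bc1, bc2, bc3, bc4, bc5⟩ := hbc
  obtain ⟨ce0, ce1, ce2, ce3, ce4, ce5⟩ := hce
  obtain ⟨ae0, ae1, ae2, ae3, ae4, ae5⟩ := hae
  refine ⟨fun ⟨h1, h2, h3, h4⟩ => ?_, fun ⟨h1, h2, h3, h4⟩ => ?_⟩
  · have k1 : ¬ (c.2 = 0 ∧ e.2 = 0) := fun h => by have := ce1 h.1 h.2; omega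
    have k2 : ¬ (b.2 = 1 ∧ c.2 = 1) := fun h => by have := bc2 h.1 h.2; omega
    have k3 : b.2 = 2 := by clear * - k1 k2 ce0 bc0 bc5; omega
    have k4 : a.2 = 2 := by clear * - k3 ab0 ab5; omega
    have := ab3 k4 k3
    omega
  · have k1 : ¬ (b.2 = 0 ∧ c.2 = 0) := fun h => by have := bc1 h.1 h.2; omega
    have k2 : ¬ (a.2 = 1 ∧ b.2 = 1) := fun h => by have := ab2 h.1 h.2; omega
    have k3 : a.2 = 2 := by clear * - k1 k2 bc0 ab0 ab5; omega
    have k4 : e.2 ≠ 0 := fun h => by have := ae4 k3 h; omega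
    have k5 : ¬ (c.2 = 1 ∧ e.2 = 1) := fun h => by have := ce2 h.1 h.2; omega
    have k6 : c.2 = 2 := by clear * - k4 k5 ce0 ce5; omega
    have k7 : b.2 = 2 := by clear * - k6 bc0 bc5; omega
    have := bc3 k7 k6
    omega

/-- the offset -/
def off (N : ℤ) (r : ℕ) (j : ℤ) : ℤ := if r = 0 then j else if r = 1 then -j else j - 2 * N

/-- the height of an entry with `j` older entries -/
def hgt (σ M N : ℤ) (x : Entry) (j : ℤ) : ℤ := M * x.2.1 + σ * off N x.2.2 j

theorem exists_H (A : List Entry) (hA : (A.map Prod.fst).Nodup) (f : ℕ → ℤ) :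
    ∃ H : V → ℤ, ∀ i (hi : i < A.length), H (A[i]).1 = f i := by
  classical
  refine ⟨fun v => f ((A.map Prod.fst).idxOf v), fun i hi => ?_⟩
  have h1 : (A.map Prod.fst).idxOf ((A.map Prod.fst)[i]'(by simpa using hi)) = i :=
    hA.idxOf_getElem i (by simpa using hi)
  simp only [List.getElem_map] at h1
  simp only [h1]

theorem step_le {M h h' : ℤ} (hM : 0 < M) (hh : h ≤ h') : (h = h' ∨ M * h + M ≤ M * h') := by
  rcases eq_or_lt_of_le hh with h1 | h1
  · exact Or.inl h1
  · right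
    nlinarith

theorem stAnn : StAnn := by
  intro σ s0 A hσ hA
  refine ⟨hA.nodup, hA.chain, ?_⟩
  set N : ℕ := A.length with hN
  set M : ℤ := 4 * N + 4 with hM
  have hM0 : 0 < M := by omega
  -- the heights
  obtain ⟨H, hH⟩ := exists_H A hA.nodup
    (fun i => if hi : i < A.length then hgt σ M N A[i] ((N : ℤ) - 1 - i) else 0)
  have hH' : ∀ i (hi : i < A.length), H (A[i]).1 = M * (A[i]).2.1 +
      σ * off N (A[i]).2.2 ((N : ℤ) - 1 - i) := by
    intro i hi
    rw [hH i hi, dif_pos hi, hgt]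
  have hoff : ∀ i (hi : i < A.length), (A[i]).2.2 ≤ 2 := fun i hi => hA.run_le _ (List.getElem_mem hi)
  have hoffb : ∀ i (hi : i < A.length), -(2 * (N : ℤ)) ≤ off N (A[i]).2.2 ((N : ℤ) - 1 - i) ∧
      off N (A[i]).2.2 ((N : ℤ) - 1 - i) ≤ (N : ℤ) := by
    intro i hi
    unfold off
    split_ifs <;> omega
  have hσ2 : σ * σ = 1 := by rcases hσ with rfl | rfl <;> norm_num
  -- the pairwise relation
  have hpw : A.Pairwise (fun y x => Rel (σ * H y.1, y.2.2) (σ * H x.1, x.2.2)) := by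
    rw [List.pairwise_iff_getElem]
    intro i k hi hk hik
    have e1 := List.pairwise_iff_getElem.1 hA.run_mono i k hi hk hik
    have e2 := List.pairwise_iff_getElem.1 hA.mono0 i k hi hk hik
    have e3 := List.pairwise_iff_getElem.1 hA.mono1 i k hi hk hik
    have e4 := List.pairwise_iff_getElem.1 hA.mono2 i k hi hk hik
    have e5 := hA.base0 _ (List.getElem_mem hk)
    have e6 := hA.base2 _ (List.getElem_mem hi)
    have v1 : σ * H (A[i]).1 = M * (σ * (A[i]).2.1) + off N (A[i]).2.2 ((N : ℤ) - 1 - i) := by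
      rw [hH' i hi]
      linear_combination (off N (A[i]).2.2 ((N : ℤ) - 1 - i)) * hσ2
    have v2 : σ * H (A[k]).1 = M * (σ * (A[k]).2.1) + off N (A[k]).2.2 ((N : ℤ) - 1 - k) := by
      rw [hH' k hk]
      linear_combination (off N (A[k]).2.2 ((N : ℤ) - 1 - k)) * hσ2
    have r1 := hoff i hi
    have b1 := hoffb i hi
    have b2 := hoffb k hk
    simp only [Rel]
    rw [v1, v2]
    refine ⟨e1, ?_, ?_, ?_, ?_, r1⟩
    · intro h1 h2
      have q := step_le hM0 (e2 h1 h2)
      have o1 : off N (A[i]).2.2 ((N : ℤ) - 1 - i) = (N : ℤ) - 1 - i := by rw [h1]; rfl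
      have o2 : off N (A[k]).2.2 ((N : ℤ) - 1 - k) = (N : ℤ) - 1 - k := by rw [h2]; rfl
      rcases q with q | q
      · rw [q, o1, o2]; omega
      · omega
    · intro h1 h2
      have q := step_le hM0 (e3 h1 h2)
      have o1 : off N (A[i]).2.2 ((N : ℤ) - 1 - i) = -((N : ℤ) - 1 - i) := by rw [h1]; rfl
      have o2 : off N (A[k]).2.2 ((N : ℤ) - 1 - k) = -((N : ℤ) - 1 - k) := by rw [h2]; rfl
      rcases q with q | q
      · rw [q, o1, o2]; omega
      · omega
    · intro h1 h2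
      have q := step_le hM0 (e4 h1 h2)
      have o1 : off N (A[i]).2.2 ((N : ℤ) - 1 - i) = ((N : ℤ) - 1 - i) - 2 * N := by rw [h1]; rfl
      have o2 : off N (A[k]).2.2 ((N : ℤ) - 1 - k) = ((N : ℤ) - 1 - k) - 2 * N := by rw [h2]; rfl
      rcases q with q | q
      · rw [q, o1, o2]; omega
      · omega
    · intro h1 h2
      have q := step_le hM0 ((e6 h1).trans (e5 h2))
      have o1 : off N (A[i]).2.2 ((N : ℤ) - 1 - i) = ((N : ℤ) - 1 - i) - 2 * N := by rw [h1]; rfl
      have o2 : off N (A[k]).2.2 ((N : ℤ) - 1 - k) = (N : ℤ) - 1 - k := by rw [h2]; rfl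
      rcases q with q | q
      · rw [q, o1, o2]; omega
      · omega
  refine ⟨H, ?_, ?_, ?_⟩
  · -- distinct
    have key : ∀ i k (hi : i < A.length) (hk : k < A.length), i ≠ k → H (A[i]).1 ≠ H (A[k]).1 := by
      intro i k hi hk hik heq
      have b1 := hoffb i hi
      have b2 := hoffb k hk
      have v1 := hH' i hi
      have v2 := hH' k hk
      have hh : (A[i]).2.1 = (A[k]).2.1 := by
        rcases lt_trichotomy (A[i]).2.1 (A[k]).2.1 with h | h | h
        · exfalso
          have q : M * (A[i]).2.1 + M ≤ M * (A[k]).2.1 := by nlinarith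
          rcases hσ with hs | hs <;> rw [hs] at v1 v2 <;> omega
        · exact h
        · exfalso
          have q : M * (A[k]).2.1 + M ≤ M * (A[i]).2.1 := by nlinarith
          rcases hσ with hs | hs <;> rw [hs] at v1 v2 <;> omega
      have ho : off N (A[i]).2.2 ((N : ℤ) - 1 - i) = off N (A[k]).2.2 ((N : ℤ) - 1 - k) := by
        rw [hh] at v1
        rcases hσ with hs | hs <;> rw [hs] at v1 v2 <;> omega
      have r1 := hoff i hi
      have r2 := hoff k hk
      unfold off at ho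
      split_ifs at ho <;> omega
    intro a ha b hb hab
    obtain ⟨i, hi, rfl⟩ := List.getElem_of_mem ha
    obtain ⟨k, hk, rfl⟩ := List.getElem_of_mem hb
    rw [List.length_map] at hi hk
    simp only [List.getElem_map] at hab ⊢
    refine key i k hi hk ?_
    rintro rfl
    exact hab rfl
  · -- above
    intro a ha b hb hab
    obtain ⟨i, hi, rfl⟩ := List.getElem_of_mem ha
    obtain ⟨k, hk, rfl⟩ := List.getElem_of_mem hb
    rw [List.length_map] at hi hk
    simp only [List.getElem_map] at hab ⊢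
    obtain ⟨m, hm, hm2⟩ := hab
    have c1 := hA.close _ (List.getElem_mem hi)
    have c2 := hA.close _ (List.getElem_mem hk)
    rw [abs_le] at c1 c2
    have hl : lev (A[k]).1 = lev (A[i]).1 + 3 * m := by
      unfold lev
      rw [hm2 0, hm2 1, hm2 2]
      ring
    have hlt : (A[i]).2.1 < (A[k]).2.1 := by omega
    have q : M * (A[i]).2.1 + M ≤ M * (A[k]).2.1 := by nlinarith
    have b1 := hoffb i hi
    have b2 := hoffb k hk
    have v1 := hH' i hi
    have v2 := hH' k hk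
    rcases hσ with hs | hs <;> rw [hs] at v1 v2 <;> omega
  · -- no alternation
    intro a b c e hs
    rw [List.map_map] at hs
    obtain ⟨l, hl, he⟩ := List.sublist_map_iff.1 hs
    have hp := hpw.sublist hl
    match l, he, hp with
    | [x1, x2, x3, x4], he, hp =>
      simp only [List.map_cons, List.map_nil, List.cons.injEq, Function.comp_apply, and_true] at he
      obtain ⟨rfl, rfl, rfl, rfl⟩ := he
      simp only [List.pairwise_cons, List.mem_cons, List.not_mem_nil, or_false,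
        forall_eq_or_imp, forall_eq] at hp
      have h4 := core (σ * H x1.1, x1.2.2) (σ * H x2.1, x2.2.2) (σ * H x3.1, x3.2.2)
        (σ * H x4.1, x4.2.2) hp.1.1 hp.2.1.1 hp.2.2.1 hp.1.2.2
      simp only at h4
      rcases hσ with hs | hs <;> rw [hs] at h4 <;> omega

end Pool.Agent.K7.H53.UK
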